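import Pool.Agent.TH975.EC.Rank

/-! Exponential polynomials with complex exponents on cubes. -/

namespace Pool.Agent.TH975.EC

open Polynomial Module Pool.Agent.TH975.EP

/-- **Core**: on large cubes some value of `ev C Q` is not a linear form in `1` and logarithms,
given rows which are not degenerate. -/
theorem core0 (C : Finset ℂ) (Q : ℂ → ℂ[X]) {N r : ℕ} (hr : r = ∑ c ∈ C, wt (Q c))
    (u : Fin (r + 1) → ℝ) (hu : ∀ j, 0 < u j) (v : Fin N → ℝ) (hv : ∀ p, 0 < v p)
    (hL : ∀ j p, ev C Q (u j * v p) ∈ LL)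
    (hrank : ∀ m : Fin (r + 1) → ℂ, (∀ j, IsAlgebraic ℚ (m j)) → m ≠ 0 → 3 * (r + 1) ^ 2 <
      finrank QB (Submodule.span QB (Set.range fun p => ev C (cmb m u Q) (v p)))) : False := by
  classical
  let I : Finset (Σ _ : ℂ, ℕ) := C.sigma fun c => Finset.range (wt (Q c))
  have hI : I.card = r := by
    rw [hr, Finset.card_sigma]
    simp
  let e : I ≃ Fin r := I.equivFinOfCardEq hI
  let x : Fin r → Fin (r + 1) → ℂ := fun ρ j => (shf (u j) Q (e.symm ρ).1.1).coeff (e.symm ρ).1.2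
  let y : Fin r → Fin N → ℂ := fun ρ p =>
    pw (e.symm ρ).1.1 (v p) * ((Real.log (v p) : ℝ) : ℂ) ^ (e.symm ρ).1.2
  have huv : ∀ j p, ∑ ρ, x ρ j * y ρ p = ev C Q (u j * v p) := by
    intro j p
    rw [← ev_shf C Q (hu j) (hv p)]
    have h1 : ∑ ρ, x ρ j * y ρ p = ∑ i : I, (shf (u j) Q i.1.1).coeff i.1.2 *
        (pw i.1.1 (v p) * ((Real.log (v p) : ℝ) : ℂ) ^ i.1.2) := by
      rw [← Equiv.sum_comp e.symm]
    rw [h1, Finset.sum_coe_sort I (fun i => (shf (u j) Q i.1).coeff i.2 *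
        (pw i.1 (v p) * ((Real.log (v p) : ℝ) : ℂ) ^ i.2)), Finset.sum_sigma]
    unfold ev
    apply Finset.sum_congr rfl
    intro c _
    rw [eval_wt (wt_shf (u j) Q c), Finset.sum_mul]
    apply Finset.sum_congr rfl
    intro i _
    ring
  choose S hS h using fun j p => Pool.Agent.H301R2.SSE.Lt_rep (hL j p)
  let T : Finset ℂ := Finset.univ.biUnion (fun ij : Fin (r + 1) × Fin N => S ij.1 ij.2)
  have hT : ∀ a ∈ T, IsAlgebraic ℚ a := by
    intro a ha
    obtain ⟨ij, -, h1⟩ := Finset.mem_biUnion.mp ha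
    exact hS _ _ a h1
  let K : IntermediateField ℚ ℂ := IntermediateField.adjoin ℚ (T : Set ℂ)
  have : FiniteDimensional ℚ K := by
    apply IntermediateField.finiteDimensional_adjoin
    intro x hx
    exact (hT x hx).isIntegral
  have hKalg : ∀ a : K, IsAlgebraic ℚ (a : ℂ) := fun a =>
    (Algebra.IsAlgebraic.isAlgebraic (R := ℚ) a).algebraMap (A := ℂ)
  choose β hβ hlog using fun j p => h j p K (fun a ha => by
    apply IntermediateField.subset_adjoin ℚ (T : Set ℂ)
    exact Finset.mem_biUnion.mpr ⟨(j, p), Finset.mem_univ _, ha⟩)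
  choose w hw1 hw2 using fun j p => Pool.Agent.H301R2.SSE.span_K K (hlog j p)
  refine SG.strong_core K x y β w (fun j p => hKalg ⟨β j p, hβ j p⟩) hw1 ?_ ?_
  · intro j p
    rw [huv, ← hw2 j p]; ring
  · intro m hm hm0
    have h1 : (fun p => ∑ j, m j * ∑ ρ, x ρ j * y ρ p) = fun p => ev C (cmb m u Q) (v p) := by
      funext p
      rw [ev_cmb C m u Q hu (hv p)]
      apply Finset.sum_congr rfl
      intro j _
      rw [huv]
    rw [h1]
    exact hrank m hm hm0

theorem Good.sub {c : ℂ} {l l' : List (ℝ × ℝ)} (h : Good c l) (hl : ∀ e ∈ l', e ∈ l) : Good c l' :=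
  fun e he => h e (hl e he)

theorem core_a (C : Finset ℂ) (Q : ℂ → ℂ[X]) {c0 : ℂ} (hc0 : c0 ∈ C) (hQ : Q c0 ≠ 0) :
    ∀ l, Good c0 l → (∀ e ∈ l, Sep C c0 e) → KK (W C Q) ≤ l.length → ∀ a : ℝ, 0 < a →
      ∃ v ∈ vals l a, ev C Q v ∉ LL := by
  classical
  obtain ⟨r, hr⟩ : ∃ r, r = ∑ c ∈ C, wt (Q c) := ⟨_, rfl⟩
  obtain ⟨K, hKdef⟩ : ∃ K, K = KR (W C Q) (3 * (r + 1) ^ 2) := ⟨_, rfl⟩
  have hK := rank_a C hc0 (W C Q) (3 * (r + 1) ^ 2)
  rw [← hKdef] at hK
  intro l hl hsep hlen' a ha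
  have hlen : r + K ≤ l.length := by
    have hrW : W C Q = r := hr.symm
    unfold KK at hlen'
    rw [hrW] at hlen' hKdef
    rw [← hKdef] at hlen'
    omega
  by_contra hcon
  push Not at hcon
  obtain ⟨l1, hl1⟩ : ∃ l1, l1 = l.take r := ⟨_, rfl⟩
  obtain ⟨l2, hl2⟩ : ∃ l2, l2 = l.drop r := ⟨_, rfl⟩
  have hl12 : l1 ++ l2 = l := by rw [hl1, hl2]; exact List.take_append_drop r l
  have hlen1 : l1.length = r := by rw [hl1, List.length_take]; omega
  have hlen2 : K ≤ l2.length := by rw [hl2, List.length_drop]; omega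
  have hG1 : Good c0 l1 := hl.sub fun e he => by
    rw [← hl12]; exact List.mem_append_left _ he
  have hsub2 : ∀ e ∈ l2, e ∈ l := fun e he => by
    rw [← hl12]; exact List.mem_append_right _ he
  have hG2 : Good c0 l2 := hl.sub hsub2
  -- rows
  let f : Fin (vals l1 1).length → ℂ := fun i => pw c0 ((vals l1 1).get i)
  have hVf : FiniteDimensional QB (Submodule.span QB (Set.range f)) :=
    FiniteDimensional.span_of_finite QB (Set.finite_range f)
  have hrow := growth (c := c0) (lam := 1) one_ne_zero l1 hG1 1 one_pos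
    (Submodule.span QB (Set.range f)) (fun v hv => by
      rw [one_mul]
      obtain ⟨i, rfl⟩ := List.get_of_mem hv
      exact Submodule.subset_span ⟨i, rfl⟩)
  rw [hlen1] at hrow
  obtain ⟨g, hg⟩ := sel f hrow
  let u : Fin (r + 1) → ℝ := fun j => (vals l1 1).get (g j)
  have humem : ∀ j, u j ∈ vals l1 1 := fun j => List.get_mem _ _
  have hu : ∀ j, 0 < u j := fun j => vals_pos hG1.pos one_pos _ (humem j)
  let v : Fin (vals l2 a).length → ℝ := fun p => (vals l2 a).get p
  have hvmem : ∀ p, v p ∈ vals l2 a := fun p => List.get_mem _ _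
  have hv : ∀ p, 0 < v p := fun p => vals_pos hG2.pos ha _ (hvmem p)
  refine core0 C Q hr u hu v hv ?_ ?_
  · intro j p
    apply hcon
    have := mem_vals_append l1 l2 (humem j) (hvmem p)
    rwa [one_mul, hl12] at this
  · intro m hma hm
    have hVf' : FiniteDimensional QB (Submodule.span QB
        (Set.range fun p => ev C (cmb m u Q) (v p))) :=
      FiniteDimensional.span_of_finite QB (Set.finite_range _)
    refine hK (cmb m u Q) ?_ ?_ l2 hG2 (fun e he => hsep e (hsub2 e he)) hlen2 a ha _ ?_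
    · exact Finset.sum_le_sum fun c _ => wt_cmb m u Q c
    · intro h0
      have h1 := cmb_coeff m u Q c0
      rw [h0, coeff_zero] at h1
      rcases mul_eq_zero.1 h1.symm with h2 | h2
      · apply hm
        rw [Fintype.linearIndependent_iff] at hg
        have h3 := hg (fun j => (⟨m j, mem_QB.2 (hma j)⟩ : QB)) (by
          rw [← h2]
          apply Finset.sum_congr rfl
          intro j _
          rw [Algebra.smul_def]
          rfl)
        funext j
        exact congrArg (fun z : QB => (z : ℂ)) (h3 j)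
      · exact hQ (leadingCoeff_eq_zero.1 h2)
    · intro w hw
      obtain ⟨p, rfl⟩ := List.get_of_mem hw
      exact Submodule.subset_span ⟨p, rfl⟩

theorem rank_b (C : Finset ℂ) {c0 : ℚ} (hc0 : (c0 : ℂ) ∈ C) :
    ∀ T s : ℕ, ∀ Q : ℂ → ℂ[X], W C Q ≤ T → 2 ≤ wt (Q c0) → ∀ l, GB l →
      (∀ e ∈ l, Sep C c0 e) →
      KR T s ≤ l.length → ∀ a : ℝ, 0 < a → ∀ (V : Submodule QB ℂ) [FiniteDimensional QB V],
        (∀ v ∈ vals l a, ev C Q v ∈ V) → s < finrank QB V := by
  intro T s Q hQ hQ2 l hl hs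
  refine rank C hc0 1 (fun l => GB l ∧ ∀ e ∈ l, Sep C c0 e)
    (fun e l h => ⟨h.1.tail, fun e' he' => h.2 e' (List.mem_cons_of_mem _ he')⟩)
    (fun e l h => ⟨h.1.head.1, h.1.head.2.1, h.1.head.2.2, h.2 e (List.mem_cons_self ..)⟩)
    ?_ T s Q hQ hQ2 l ⟨hl, hs⟩
  intro P hP l hl a ha V _ hV
  have hl := hl.1
  have hne : P ≠ 0 := fun h => by rw [h, wt_zero] at hP; omega
  rw [wt_of_ne hne] at hP
  have hdeg : P.natDegree = 1 := by omega
  have h1 : P = Polynomial.C (P.coeff 1) * X + Polynomial.C (P.coeff 0) :=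
    eq_X_add_C_of_natDegree_le_one hdeg.le
  have h2 : P.coeff 1 ≠ 0 := by
    rw [← hdeg]; exact leadingCoeff_ne_zero.2 hne
  have hK : pw (c0 : ℂ) a ≠ 0 := pw_ne _ _
  refine growth_log (α := pw (c0 : ℂ) a * P.coeff 1)
    (β := pw (c0 : ℂ) a * P.coeff 0) (mul_ne_zero hK h2) l hl ha V ?_
  intro v hv
  obtain ⟨w, hw, hwa, hvw⟩ := vals_alg hl.1 a v hv
  have h3 := hV v hv
  have h4 : pw (c0 : ℂ) w ≠ 0 := pw_ne _ _
  let z : QB := ⟨_, pw_QB c0 hw hwa⟩
  have h5 := V.smul_mem z⁻¹ h3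
  have h6 : z⁻¹ • (P.eval ((Real.log v : ℝ) : ℂ) * pw (c0 : ℂ) v) =
      pw (c0 : ℂ) a * P.coeff 1 * ((Real.log v : ℝ) : ℂ) + pw (c0 : ℂ) a * P.coeff 0 := by
    rw [Algebra.smul_def]
    have h7 : (algebraMap QB ℂ) z⁻¹ = (pw (c0 : ℂ) w)⁻¹ := by
      rw [map_inv₀]; rfl
    rw [h7]
    have h8 : P.eval ((Real.log v : ℝ) : ℂ) = P.coeff 1 * ((Real.log v : ℝ) : ℂ) + P.coeff 0 := by
      conv_lhs => rw [h1]
      simp
    rw [h8]
    have h9 : pw (c0 : ℂ) v = pw (c0 : ℂ) a * pw (c0 : ℂ) w := by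
      rw [hvw, pw_mul _ ha hw]
    rw [h9]
    field_simp
  rw [← h6]
  exact h5

theorem core_b (C : Finset ℂ) (Q : ℂ → ℂ[X]) {c0 : ℚ} (hc0 : (c0 : ℂ) ∈ C)
    (hQ : 2 ≤ (Q c0).natDegree) :
    ∀ l, GB l → (∀ e ∈ l, Sep C c0 e) → KK (W C Q) ≤ l.length → ∀ a : ℝ, 0 < a →
      ∃ v ∈ vals l a, ev C Q v ∉ LL := by
  classical
  obtain ⟨r, hr⟩ : ∃ r, r = ∑ c ∈ C, wt (Q c) := ⟨_, rfl⟩
  obtain ⟨K, hKdef⟩ : ∃ K, K = KR (W C Q) (3 * (r + 1) ^ 2) := ⟨_, rfl⟩
  have hK := rank_b C hc0 (W C Q) (3 * (r + 1) ^ 2)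
  rw [← hKdef] at hK
  intro l hl hsep hlen' a ha
  have hlen : r + 1 + K ≤ l.length := by
    have hrW : W C Q = r := hr.symm
    unfold KK at hlen'
    rw [hrW] at hlen' hKdef
    rw [← hKdef] at hlen'
    omega
  by_contra hcon
  push Not at hcon
  obtain ⟨l1, hl1⟩ : ∃ l1, l1 = l.take (r + 1) := ⟨_, rfl⟩
  obtain ⟨l2, hl2⟩ : ∃ l2, l2 = l.drop (r + 1) := ⟨_, rfl⟩
  have hl12 : l1 ++ l2 = l := by rw [hl1, hl2]; exact List.take_append_drop (r + 1) l
  have hlen1 : l1.length = r + 1 := by rw [hl1, List.length_take]; omega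
  have hlen2 : K ≤ l2.length := by rw [hl2, List.length_drop]; omega
  rw [← hl12] at hl
  have hG1 : GB l1 := hl.left
  have hG2 : GB l2 := hl.right
  have hsub2 : ∀ e ∈ l2, e ∈ l := fun e he => by
    rw [← hl12]; exact List.mem_append_right _ he
  -- rows
  let f : Fin (vals l1 1).length → ℂ := fun i => ((Real.log ((vals l1 1).get i) : ℝ) : ℂ)
  have hVf : FiniteDimensional QB (Submodule.span QB (Set.range f)) :=
    FiniteDimensional.span_of_finite QB (Set.finite_range f)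
  have hrow := growth_log (α := 1) (β := 0) one_ne_zero l1 hG1 (a := 1) one_pos
    (Submodule.span QB (Set.range f)) (fun v hv => by
      rw [one_mul, add_zero]
      obtain ⟨i, rfl⟩ := List.get_of_mem hv
      exact Submodule.subset_span ⟨i, rfl⟩)
  rw [hlen1] at hrow
  obtain ⟨g, hg⟩ := sel f hrow
  let u : Fin (r + 1) → ℝ := fun j => (vals l1 1).get (g j)
  have humem : ∀ j, u j ∈ vals l1 1 := fun j => List.get_mem _ _
  have hu : ∀ j, 0 < u j := fun j => vals_pos hG1.pos one_pos _ (humem j)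
  have hua : ∀ j, IsAlgebraic ℚ (u j) := by
    intro j
    obtain ⟨w, hw, hwa, h⟩ := vals_alg hG1.1 1 _ (humem j)
    rw [h, one_mul]; exact hwa
  let v : Fin (vals l2 a).length → ℝ := fun p => (vals l2 a).get p
  have hvmem : ∀ p, v p ∈ vals l2 a := fun p => List.get_mem _ _
  have hv : ∀ p, 0 < v p := fun p => vals_pos hG2.pos ha _ (hvmem p)
  refine core0 C Q hr u hu v hv ?_ ?_
  · intro j p
    apply hcon
    have := mem_vals_append l1 l2 (humem j) (hvmem p)
    rwa [one_mul, hl12] at this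
  · intro m hma hm
    have hVf' : FiniteDimensional QB (Submodule.span QB
        (Set.range fun p => ev C (cmb m u Q) (v p))) :=
      FiniteDimensional.span_of_finite QB (Set.finite_range _)
    refine hK (cmb m u Q) ?_ ?_ l2 hG2 (fun e he => hsep e (hsub2 e he)) hlen2 a ha _ ?_
    · exact Finset.sum_le_sum fun c _ => wt_cmb m u Q c
    · obtain ⟨D, hD⟩ : ∃ D, (Q c0).natDegree = D + 1 := ⟨(Q c0).natDegree - 1, by omega⟩
      by_contra hlt
      have h0 : wt (cmb m u Q c0) ≤ 1 := by omega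
      rw [wt_le_iff, mem_degreeLT, degree_lt_iff_coeff_zero] at h0
      have h1 := cmb_coeff m u Q c0
      rw [h0 _ (by omega)] at h1
      have hne : Q c0 ≠ 0 := fun h => by rw [h, natDegree_zero] at hQ; omega
      have hlead := leadingCoeff_ne_zero.2 hne
      have h2 := (mul_eq_zero.1 h1.symm).resolve_right hlead
      have h3 := cmb_coeff' m u Q c0 hD
      rw [h0 _ (by omega), h2, zero_mul, zero_add] at h3
      have h4 : (Q c0).coeff (D + 1) ≠ 0 := by rw [← hD]; exact hlead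
      have h5 : ((D + 1 : ℕ) : ℂ) ≠ 0 := by exact_mod_cast Nat.succ_ne_zero D
      have h6 := (mul_eq_zero.1 h3.symm).resolve_right (mul_ne_zero h4 h5)
      apply hm
      rw [Fintype.linearIndependent_iff] at hg
      have h7 := hg (fun j => (⟨m j, mem_QB.2 (hma j)⟩ : QB) * ⟨_, pw_QB c0 (hu j) (hua j)⟩) (by
        rw [← h6]
        apply Finset.sum_congr rfl
        intro j _
        rw [Algebra.smul_def, map_mul]
        rfl)
      funext j
      have h8 := congrArg (fun z : QB => (z : ℂ)) (h7 j)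
      have h9 : m j * pw (c0 : ℂ) (u j) = 0 := h8
      exact (mul_eq_zero.1 h9).resolve_right (pw_ne _ _)
    · intro w hw
      obtain ⟨p, rfl⟩ := List.get_of_mem hw
      exact Submodule.subset_span ⟨p, rfl⟩

theorem core_c (C : Finset ℂ) {c0 : ℚ} (hc0 : (c0 : ℂ) ∈ C) :
    ∀ T : ℕ, ∀ Q : ℂ → ℂ[X], W C Q ≤ T → (∀ c ∈ C, Q c ≠ 0 → ∃ q : ℚ, (q : ℂ) = c) →
      (∀ c ∈ C, wt (Q c) ≤ 2) → Bd (Q c0) → ∀ l, GB l → (∀ e ∈ l, Sep C c0 e) →
        T + 3 ≤ l.length → ∀ a : ℝ, 0 < a →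
        IsAlgebraic ℚ a → ∃ v ∈ vals l a, ev C Q v ∉ LL := by
  intro T
  induction T with
  | zero =>
    intro Q hW _ _ hbd
    exfalso
    have h1 : wt (Q c0) ≤ W C Q :=
      Finset.single_le_sum (f := fun c => wt (Q c)) (fun _ _ => Nat.zero_le _) hc0
    have h2 : Q c0 = 0 := wt_eq_zero.1 (by omega)
    rcases hbd with h | h
    · apply h; rw [h2, coeff_zero]; exact QB.zero_mem
    · apply h; rw [h2, coeff_zero]; exact LL.zero_mem
  | succ T ih =>
    intro Q hW hrat hwt hbd l hl hsep hlen a ha haa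
    by_cases h : ∃ c1 ∈ C, Q c1 ≠ 0 ∧ c1 ≠ c0
    · obtain ⟨c1, hc1, hQ1, hcase⟩ := h
      obtain ⟨q1, hq1⟩ := hrat c1 hc1 hQ1
      obtain ⟨e, l', rfl⟩ : ∃ e l', l = e :: l' := by
        cases l with
        | nil => simp at hlen
        | cons e l' => exact ⟨e, l', rfl⟩
      obtain ⟨he1, he2, hne⟩ := hl.head
      obtain ⟨-, -, he1a, he2a⟩ := hl.1 e (List.mem_cons_self ..)
      have hse := hsep e (List.mem_cons_self ..)
      set τ : ℂ := pw c1 e.2 / pw c1 e.1 with hτ
      have hB : ∀ c : ℂ, pw c e.1 ≠ 0 := fun c => pw_ne c _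
      have hAB : pw c1 e.2 = τ * pw c1 e.1 := by
        rw [hτ, div_mul_cancel₀ _ (hB c1)]
      have hτa : τ ∈ QB := by
        rw [hτ, ← hq1]
        exact div_mem (pw_QB q1 he2 he2a) (pw_QB q1 he1 he1a)
      have hW' : W C (dQ e τ Q) ≤ T := by
        have h1 : W C (dQ e τ Q) < W C Q := by
          apply Finset.sum_lt_sum
          · intro c _; exact dif_wt_le _ _ _ _ _ _
          · exact ⟨c1, hc1, dif_wt_lt hAB hQ1⟩
        omega
      obtain ⟨v, hv, hvL⟩ := ih (dQ e τ Q) hW' (by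
        intro c hc hne
        apply hrat c hc
        intro h0
        apply hne
        rw [← wt_eq_zero]
        have := dif_wt_le (pw c e.2) (pw c e.1) ((Real.log e.2 : ℝ) : ℂ)
          ((Real.log e.1 : ℝ) : ℂ) τ (Q c)
        rw [h0, wt_zero] at this
        unfold dQ
        rw [h0]
        omega) (by
        intro c hc
        exact (dif_wt_le _ _ _ _ _ _).trans (hwt c hc)) (by
        apply Bd.dif (hwt c0 hc0) (pw_QB c0 he2 he2a) (pw_QB c0 he1 he1a) hτa
          (log_LL he2 he2a) (log_LL he1 he1a) ?_ hbd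
        intro h2
        apply hse c1 hc1 hcase
        have h9 := hB c1
        rw [h2, hτ]
        field_simp)
        l' hl.tail (fun e' he' => hsep e' (List.mem_cons_of_mem _ he'))
        (by rw [List.length_cons] at hlen; omega) a ha haa
      have hv0 := vals_pos hl.tail.pos ha v hv
      obtain ⟨h5, h6⟩ := mem_vals_cons (e := e) hv
      rw [ev_dQ C Q he1 he2 τ hv0] at hvL
      by_cases h7 : ev C Q (e.2 * v) ∈ LL
      · refine ⟨_, h5, fun h8 => hvL (Submodule.sub_mem _ h7 (LL_mul hτa h8))⟩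
      · exact ⟨_, h6, h7⟩
    · push Not at h
      have h2 : ∀ v, ev C Q v = (Q c0).eval ((Real.log v : ℝ) : ℂ) * pw (c0 : ℂ) v := by
        intro v
        unfold ev
        apply Finset.sum_eq_single (c0 : ℂ)
        · intro c hc hne
          have : Q c = 0 := by
            by_contra h3
            exact hne (h c hc h3)
          rw [this, eval_zero, zero_mul]
        · intro h3; exact absurd hc0 h3
      by_contra hcon
      push Not at hcon
      have hva : ∀ v ∈ vals l a, 0 < v ∧ IsAlgebraic ℚ v := by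
        intro v hv
        obtain ⟨w, hw, hwa, rfl⟩ := vals_alg hl.1 a v hv
        exact ⟨mul_pos ha hw, haa.mul hwa⟩
      have h3 : ∀ v ∈ vals l a,
          (Q c0).coeff 1 * ((Real.log v : ℝ) : ℂ) + (Q c0).coeff 0 ∈ LL := by
        intro v hv
        obtain ⟨hv0, hv1⟩ := hva v hv
        have h4 := hcon v hv
        rw [h2] at h4
        have h5 : pw (c0 : ℂ) v ≠ 0 := pw_ne _ _
        have h6 := LL_mul (inv_mem (pw_QB c0 hv0 hv1)) h4
        have h7 : (Q c0).eval ((Real.log v : ℝ) : ℂ) =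
            (Q c0).coeff 1 * ((Real.log v : ℝ) : ℂ) + (Q c0).coeff 0 := by
          conv_lhs => rw [lin_eq (hwt c0 hc0)]
          simp
        rw [h7] at h6
        have h8 : (pw (c0 : ℂ) v)⁻¹ *
            (((Q c0).coeff 1 * ((Real.log v : ℝ) : ℂ) + (Q c0).coeff 0) * pw (c0 : ℂ) v) =
            (Q c0).coeff 1 * ((Real.log v : ℝ) : ℂ) + (Q c0).coeff 0 := by
          field_simp
        rwa [h8] at h6
      by_cases hβ : (Q c0).coeff 1 ∈ QB
      · have hl0 : (Q c0).coeff 0 ∉ LL := by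
          rcases hbd with h | h
          · exact absurd hβ h
          · exact h
        obtain ⟨v, hv⟩ := vals_nonempty l a
        obtain ⟨hv0, hv1⟩ := hva v hv
        apply hl0
        have h4 := Submodule.sub_mem _ (h3 v hv) (LL_mul hβ (log_LL hv0 hv1))
        rwa [add_sub_cancel_left] at h4
      · have hld : ∀ i : Fin l.length, (Q c0).coeff 1 * ld (l.get i) ∈ LL := by
          intro i
          obtain ⟨v, h4, h5⟩ := vals_side l a i
          have hv := side_pos hl ha i h4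
          obtain ⟨h6, h7⟩ := hl.pos _ (List.get_mem l i)
          have h8 := Submodule.sub_mem _ (h3 _ h5) (h3 _ h4)
          have h9 : (Q c0).coeff 1 * ((Real.log (v * (l.get i).2) : ℝ) : ℂ) + (Q c0).coeff 0 -
              ((Q c0).coeff 1 * ((Real.log (v * (l.get i).1) : ℝ) : ℂ) + (Q c0).coeff 0) =
              (Q c0).coeff 1 * ld (l.get i) := by
            rw [Real.log_mul hv.ne' h6.ne', Real.log_mul hv.ne' h7.ne']
            unfold ld
            push_cast
            ring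
          rwa [h9] at h8
        have hlen3 : 3 ≤ l.length := by omega
        refine term_c hβ (fun i : Fin 3 => ld (l.get (Fin.castLE hlen3 i))) ?_ ?_ ?_
        · exact hl.2.comp _ (Fin.castLE_injective hlen3)
        · intro i
          obtain ⟨h4, h5, h6, h7⟩ := hl.1 _ (List.get_mem l (Fin.castLE hlen3 i))
          exact Submodule.sub_mem _ (log_LL h5 h7) (log_LL h4 h6)
        · intro i; exact hld _

end Pool.Agent.TH975.EC
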