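import Pool.Agent.TH975.EC.Core

/-! From cubes to density: complex exponents. -/

namespace Pool.Agent.TH975.EC

open Polynomial Module Pool.Agent.TH975.EP Pool.Agent.H297R2

theorem pw_ratio (c : ℂ) (e : ℝ × ℝ) : pw c e.2 / pw c e.1 = Complex.exp (c * ld e) := by
  unfold pw ld
  rw [← Complex.exp_sub]
  congr 1
  ring

theorem ld_mem {e : ℝ × ℝ} (h1 : 0 < e.1) (h2 : 0 < e.2) (h3 : IsAlgebraic ℚ e.1)
    (h4 : IsAlgebraic ℚ e.2) : ld e ∈ LL := by
  unfold ld
  exact Submodule.sub_mem _ (log_LL h2 h4) (log_LL h1 h3)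

/-- at most two of the ratios have an algebraic power with an exponent which is not rational -/
theorem bad_card {k : ℕ} (g : Fin k → ℝ × ℝ) (hg : ∀ i, 0 < (g i).1 ∧ 0 < (g i).2 ∧
    IsAlgebraic ℚ (g i).1 ∧ IsAlgebraic ℚ (g i).2) (hli : LinearIndependent QB (fun i => ld (g i)))
    {c : ℂ} (hc : ¬ ∃ q : ℚ, (q : ℂ) = c) (B : Finset (Fin k))
    (hB : ∀ i ∈ B, IsAlgebraic ℚ (pw c (g i).2 / pw c (g i).1)) : B.card ≤ 2 := by
  classical
  by_contra hcard
  push Not at hcard
  have hmem : ∀ i, ld (g i) ∈ LL := fun i => ld_mem (hg i).1 (hg i).2.1 (hg i).2.2.1 (hg i).2.2.2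
  have hmemc : ∀ i ∈ B, c * ld (g i) ∈ LL := by
    intro i hi
    apply Pool.Agent.H301R2.SSE.Lt_log
    rw [← pw_ratio]
    exact hB i hi
  by_cases hca : c ∈ QB
  · obtain ⟨i, hi⟩ := Finset.card_pos.1 (by omega : 0 < B.card)
    have hne : ld (g i) ≠ 0 := hli.ne_zero i
    have hexp : IsAlgebraic ℚ (Complex.exp (ld (g i))) := by
      unfold ld
      rw [Complex.exp_sub, ← Complex.ofReal_exp, ← Complex.ofReal_exp, Real.exp_log (hg i).1,
        Real.exp_log (hg i).2.1]
      rw [div_eq_mul_inv]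
      exact ((hg i).2.2.2.algebraMap (A := ℂ)).mul ((hg i).2.2.1.algebraMap (A := ℂ)).inv
    have hexpc : IsAlgebraic ℚ (Complex.exp (c * ld (g i))) := by
      rw [← pw_ratio]; exact hB i hi
    have h1 := baker (ι := Fin 2) ![ld (g i), c * ld (g i)] (by
      intro t
      fin_cases t
      · exact hexp
      · exact hexpc) (by
      rw [Fintype.linearIndependent_iff]
      intro a ha
      rw [Fin.sum_univ_two] at ha
      have h2 : ((a 0 : ℂ) + (a 1 : ℂ) * c) * ld (g i) = 0 := by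
        rw [← ha]
        simp only [Matrix.cons_val_zero, Matrix.cons_val_one, Rat.smul_def]
        ring
      have h3 := (mul_eq_zero.1 h2).resolve_right hne
      have h4 : a 1 = 0 := by
        by_contra h5
        apply hc
        refine ⟨-a 0 / a 1, ?_⟩
        have h6 : (a 1 : ℂ) ≠ 0 := by exact_mod_cast h5
        push_cast
        field_simp
        linear_combination -h3
      rw [h4] at h3
      have h5 : (a 0 : ℂ) = 0 := by simpa using h3
      have h6 : a 0 = 0 := by exact_mod_cast h5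
      intro t
      fin_cases t
      · exact h6
      · exact h4) ![c, -1] (by
      intro t
      fin_cases t
      · exact mem_QB.1 hca
      · exact isAlgebraic_one.neg) (by
      rw [Fin.sum_univ_two]
      simp)
    have h2 := h1 1
    simp at h2
  · obtain ⟨i, hi, j, hj, l, hl, hij, hil, hjl⟩ := Finset.two_lt_card.1 hcard
    refine term_c hca (fun t => ld (g (![i, j, l] t))) ?_ (fun t => hmem _) ?_
    · apply hli.comp (![i, j, l])
      intro a b hab
      fin_cases a <;> fin_cases b <;> simp_all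
    · intro t
      apply hmemc
      fin_cases t
      · exact hi
      · exact hj
      · exact hl

/-- at most one of the sides fails to separate two given powers -/
theorem sep_card {k : ℕ} (g : Fin k → ℝ × ℝ) (hli : LinearIndependent QB (fun i => ld (g i)))
    {c0 c1 : ℂ} (hne : c1 ≠ c0) (B : Finset (Fin k))
    (hB : ∀ i ∈ B, pw c0 (g i).2 * pw c1 (g i).1 = pw c1 (g i).2 * pw c0 (g i).1) :
    B.card ≤ 1 := by
  classical
  by_contra hcard
  push Not at hcard
  obtain ⟨i, hi, j, hj, hij⟩ := Finset.one_lt_card.1 hcard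
  have key : ∀ t ∈ B, ∃ m : ℤ, (c0 - c1) * ld (g t) = m * (2 * Real.pi * Complex.I) := by
    intro t ht
    have h1 := hB t ht
    unfold pw at h1
    rw [← Complex.exp_add, ← Complex.exp_add, Complex.exp_eq_exp_iff_exists_int] at h1
    obtain ⟨m, hm⟩ := h1
    refine ⟨m, ?_⟩
    unfold ld
    linear_combination hm
  obtain ⟨m, hm⟩ := key i hi
  obtain ⟨m', hm'⟩ := key j hj
  have h0 : c0 - c1 ≠ 0 := sub_ne_zero.2 (Ne.symm hne)
  have hpi : (2 * Real.pi * Complex.I : ℂ) ≠ 0 := by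
    have : (Real.pi : ℂ) ≠ 0 := by exact_mod_cast Real.pi_ne_zero
    simp [this]
  have h1 : (m' : ℂ) * ld (g i) + (-m : ℂ) * ld (g j) = 0 := by
    have h2 : (c0 - c1) * ((m' : ℂ) * ld (g i) + (-m : ℂ) * ld (g j)) = 0 := by
      linear_combination (m' : ℂ) * hm - (m : ℂ) * hm'
    exact (mul_eq_zero.1 h2).resolve_left h0
  have h3 : LinearIndependent QB ![ld (g i), ld (g j)] := by
    have := hli.comp ![i, j] (by
      intro a b hab
      fin_cases a <;> fin_cases b <;> simp_all)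
    convert this using 1
    funext t
    fin_cases t <;> rfl
  rw [LinearIndependent.pair_iff] at h3
  have h4 := (h3 ((m' : ℤ) : QB) ((-m : ℤ) : QB) (by
    rw [Algebra.smul_def, Algebra.smul_def, ← h1]
    simp)).1
  have h5 : ((m' : ℤ) : ℂ) = 0 := by
    have := congrArg (fun z : QB => (z : ℂ)) h4
    simpa using this
  rw [h5, zero_mul] at hm'
  exact hli.ne_zero j ((mul_eq_zero.1 hm').resolve_left h0)

theorem sep_set {k : ℕ} (g : Fin k → ℝ × ℝ) (hli : LinearIndependent QB (fun i => ld (g i)))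
    (C : Finset ℂ) (c0 : ℂ) : ∃ B : Finset (Fin k), B.card ≤ C.card ∧ ∀ i ∉ B, Sep C c0 (g i) := by
  classical
  refine ⟨(C.erase c0).biUnion fun c1 => Finset.univ.filter fun i =>
    pw c0 (g i).2 * pw c1 (g i).1 = pw c1 (g i).2 * pw c0 (g i).1, ?_, ?_⟩
  · refine (Finset.card_biUnion_le).trans ?_
    refine (Finset.sum_le_sum (g := fun _ => 1) fun c1 hc1 => ?_).trans ?_
    · exact sep_card g hli (Finset.ne_of_mem_erase hc1) _ fun i hi => (Finset.mem_filter.1 hi).2
    · rw [Finset.sum_const, smul_eq_mul, mul_one]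
      exact Finset.card_erase_le
  · intro i hi c1 hc1 hne h
    apply hi
    rw [Finset.mem_biUnion]
    exact ⟨c1, Finset.mem_erase.2 ⟨hne, hc1⟩, Finset.mem_filter.2 ⟨Finset.mem_univ _, h⟩⟩

theorem vals_sublist' {l l' : List (ℝ × ℝ)} (h : l'.Sublist l)
    (hl : ∀ e ∈ l, 0 < e.1 ∧ 0 < e.2 ∧ IsAlgebraic ℚ e.1 ∧ IsAlgebraic ℚ e.2) :
    ∃ b : ℝ, 0 < b ∧ IsAlgebraic ℚ b ∧ ∀ a : ℝ, ∀ v ∈ vals l' (a * b), v ∈ vals l a := by
  induction h with
  | slnil => exact ⟨1, one_pos, isAlgebraic_one, fun a v hv => by simpa using hv⟩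
  | cons e h ih =>
    obtain ⟨b, hb, hba, hb'⟩ := ih (fun e' he' => hl e' (List.mem_cons_of_mem _ he'))
    obtain ⟨h1, -, h3, -⟩ := hl e (List.mem_cons_self ..)
    refine ⟨e.1 * b, mul_pos h1 hb, h3.mul hba, fun a v hv => ?_⟩
    simp only [vals, List.mem_append]
    left
    apply hb'
    rwa [mul_assoc]
  | cons_cons e h ih =>
    obtain ⟨b, hb, hba, hb'⟩ := ih (fun e' he' => hl e' (List.mem_cons_of_mem _ he'))
    refine ⟨b, hb, hba, fun a v hv => ?_⟩
    simp only [vals, List.mem_append] at hv ⊢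
    rcases hv with hv | hv
    · left
      apply hb'
      rwa [show a * e.1 * b = a * b * e.1 by ring]
    · right
      apply hb'
      rwa [show a * e.2 * b = a * b * e.2 by ring]

theorem filt {K : ℕ} (g : Fin K → ℝ × ℝ) (hg : ∀ i, 0 < (g i).1 ∧ 0 < (g i).2 ∧
    IsAlgebraic ℚ (g i).1 ∧ IsAlgebraic ℚ (g i).2) (hli : LinearIndependent QB (fun i => ld (g i)))
    (B : Finset (Fin K)) {M : ℕ} (hM : M + B.card ≤ K) :
    ∃ l : List (ℝ × ℝ), M ≤ l.length ∧ GB l ∧ (∀ e ∈ l, ∃ i, i ∉ B ∧ e = g i) ∧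
      ∃ b : ℝ, 0 < b ∧ IsAlgebraic ℚ b ∧ ∀ a : ℝ, ∀ v ∈ vals l (a * b), v ∈ vals (List.ofFn g) a := by
  classical
  let L : List (Fin K) := (List.finRange K).filter fun i => i ∉ B
  have hnd : L.Nodup := (List.nodup_finRange _).filter _
  have hL : M ≤ L.length := by
    have h2 : L.toFinset = Finset.univ \ B := by
      ext i
      simp [L]
    rw [← List.toFinset_card_of_nodup hnd, h2, Finset.card_sdiff_of_subset (Finset.subset_univ _),
      Finset.card_univ, Fintype.card_fin]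
    omega
  have hsub : (L.map g).Sublist (List.ofFn g) := by
    rw [List.ofFn_eq_map]
    exact (List.filter_sublist).map g
  refine ⟨L.map g, by rw [List.length_map]; exact hL, ⟨?_, ?_⟩, ?_, ?_⟩
  · intro e he
    obtain ⟨i, -, rfl⟩ := List.mem_map.1 he
    exact hg i
  · have hlen : (L.map g).length = L.length := List.length_map ..
    have h2 := hli.comp (fun i : Fin (L.map g).length => L.get (Fin.cast hlen i)) (by
      intro a b hab
      have := List.nodup_iff_injective_get.1 hnd hab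
      exact Fin.cast_injective hlen this)
    convert h2 using 1
    funext i
    simp
  · intro e he
    obtain ⟨i, hi, rfl⟩ := List.mem_map.1 he
    exact ⟨i, by simpa using (List.mem_filter.1 hi).2, rfl⟩
  · apply vals_sublist' hsub
    intro e he
    rw [List.mem_ofFn] at he
    obtain ⟨i, rfl⟩ := he
    exact hg i

/-- the exceptional case -/
def Exc {h : ℕ} (c : Fin h → ℂ) (P : Fin h → ℂ[X]) : Prop :=
  ∀ i, P i ≠ 0 → (∃ q : ℚ, (q : ℂ) = c i) ∧ (P i).natDegree ≤ 1 ∧
        IsAlgebraic ℚ ((P i).coeff 1) ∧ (P i).coeff 0 ∈ LL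

theorem ev_fin {h : ℕ} (c : Fin h → ℂ) (hc : Function.Injective c) (P : Fin h → ℂ[X]) (v : ℝ) :
    ev (Finset.univ.image c) (Function.extend c P 0) v =
      ∑ i, (P i).eval ((Real.log v : ℝ) : ℂ) * pw (c i) v := by
  unfold ev
  rw [Finset.sum_image (fun i _ j _ hij => hc hij)]
  apply Finset.sum_congr rfl
  intro i _
  rw [hc.extend_apply]

theorem W_fin {h : ℕ} (c : Fin h → ℂ) (hc : Function.Injective c) (P : Fin h → ℂ[X]) :
    W (Finset.univ.image c) (Function.extend c P 0) ≤ ∑ i, ((P i).natDegree + 1) := by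
  unfold W
  rw [Finset.sum_image (fun i _ j _ hij => hc hij)]
  apply Finset.sum_le_sum
  intro i _
  rw [hc.extend_apply]
  by_cases h0 : P i = 0
  · rw [h0, wt_zero]; omega
  · rw [wt_of_ne h0]

theorem cube_all {h : ℕ} (c : Fin h → ℂ) (hc : Function.Injective c) (P : Fin h → ℂ[X]) {R : ℕ}
    (hR : ∑ i, ((P i).natDegree + 1) ≤ R) (hne : ¬ Exc c P) (p q : Fin (KM R + R + 2) → ℕ)
    (hp : ∀ i, (p i).Prime) (hq : ∀ i, (q i).Prime) (hinj : Function.Injective (Sum.elim p q))
    (a : ℕ) (ha : 0 < a) :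
      ∃ v ∈ vals (List.ofFn fun i => ((p i : ℝ), (q i : ℝ))) (a : ℝ),
        ∑ i, (P i).eval ((Real.log v : ℝ) : ℂ) * pw (c i) v ∉ LL := by
  classical
  simp only [← ev_fin c hc P]
  have hK := le_KM ((W_fin c hc P).trans hR)
  have hQ : ∀ i, Function.extend c P 0 (c i) = P i := fun i => hc.extend_apply P 0 i
  have hcard : (Finset.univ.image c).card ≤ R := by
    refine Finset.card_image_le.trans ?_
    rw [Finset.card_univ, Fintype.card_fin]
    refine le_trans ?_ hR
    calc h = ∑ i : Fin h, 1 := by simp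
      _ ≤ _ := Finset.sum_le_sum fun i _ => by omega
  have hpp : ∀ i, (0 : ℝ) < p i := fun i => by exact_mod_cast (hp i).pos
  have hqp : ∀ i, (0 : ℝ) < q i := fun i => by exact_mod_cast (hq i).pos
  have hg : ∀ i, 0 < (((p i : ℝ), (q i : ℝ)) : ℝ × ℝ).1 ∧ 0 < (((p i : ℝ), (q i : ℝ)) : ℝ × ℝ).2 ∧
      IsAlgebraic ℚ (((p i : ℝ), (q i : ℝ)) : ℝ × ℝ).1 ∧
      IsAlgebraic ℚ (((p i : ℝ), (q i : ℝ)) : ℝ × ℝ).2 := fun i =>
    ⟨hpp i, hqp i, by exact_mod_cast isAlgebraic_natCast (R := ℚ) (A := ℝ) (p i),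
      by exact_mod_cast isAlgebraic_natCast (R := ℚ) (A := ℝ) (q i)⟩
  have hli := ld_indep p q hp hq hinj
  have ha' : (0 : ℝ) < a := by exact_mod_cast ha
  have haa : IsAlgebraic ℚ (a : ℝ) := by exact_mod_cast isAlgebraic_natCast (R := ℚ) (A := ℝ) a
  by_cases h1 : ∃ j, ((¬ ∃ r : ℚ, (r : ℂ) = c j) ∧ P j ≠ 0) ∨ 2 ≤ (P j).natDegree
  · obtain ⟨j, hj⟩ := h1
    have hmem : c j ∈ Finset.univ.image c := Finset.mem_image_of_mem c (Finset.mem_univ j)
    obtain ⟨B1, hB1, hB1'⟩ := sep_set (fun i => ((p i : ℝ), (q i : ℝ))) hli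
      (Finset.univ.image c) (c j)
    by_cases hirr : ∃ r : ℚ, (r : ℂ) = c j
    · rcases hj with hj | hj
      · exact absurd hirr hj.1
      · obtain ⟨c0, hc0⟩ := hirr
        obtain ⟨l, hl1, hl2, hl3, b, hb, hba, hbv⟩ := filt (fun i => ((p i : ℝ), (q i : ℝ))) hg hli
          B1 (M := KM R) (by omega)
        obtain ⟨v, hv, hv'⟩ := core_b (Finset.univ.image c) (Function.extend c P 0) (c0 := c0)
          (by rw [hc0]; exact hmem) (by rw [hc0, hQ]; exact hj) l hl2 (by
            intro e he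
            obtain ⟨i, hi, rfl⟩ := hl3 e he
            rw [hc0]
            exact hB1' i hi) (by omega) (a * b) (mul_pos ha' hb)
        exact ⟨v, hbv _ _ hv, hv'⟩
    · have hPj : P j ≠ 0 := by
        rcases hj with hj | hj
        · exact hj.2
        · intro h0
          rw [h0, natDegree_zero] at hj
          omega
      let B2 : Finset (Fin (KM R + R + 2)) := Finset.univ.filter fun i =>
        IsAlgebraic ℚ (pw (c j) ((p i : ℝ), (q i : ℝ)).2 / pw (c j) ((p i : ℝ), (q i : ℝ)).1)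
      have hB2 : B2.card ≤ 2 := bad_card (fun i => ((p i : ℝ), (q i : ℝ))) hg hli hirr B2
        fun i hi => (Finset.mem_filter.1 hi).2
      have hB12 := Finset.card_union_le B1 B2
      obtain ⟨l, hl1, hl2, hl3, b, hb, hba, hbv⟩ := filt (fun i => ((p i : ℝ), (q i : ℝ))) hg hli
          (B1 ∪ B2) (M := KM R) (by omega)
      obtain ⟨v, hv, hv'⟩ := core_a (Finset.univ.image c) (Function.extend c P 0) hmem
        (by rw [hQ]; exact hPj) l (by
          intro e he
          obtain ⟨i, hi, rfl⟩ := hl3 e he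
          rw [Finset.mem_union, not_or] at hi
          refine ⟨hpp i, hqp i, ?_, ?_⟩
          · intro h
            have h' : (p i : ℝ) = (q i : ℝ) := h
            have h4 : p i = q i := by exact_mod_cast h'
            have h5 := hinj (a₁ := Sum.inl i) (a₂ := Sum.inr i) (by simp [h4])
            exact absurd h5 (by simp)
          · intro h
            exact hi.2 (Finset.mem_filter.2 ⟨Finset.mem_univ _, h⟩)) (by
          intro e he
          obtain ⟨i, hi, rfl⟩ := hl3 e he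
          rw [Finset.mem_union, not_or] at hi
          exact hB1' i hi.1) (by omega) (a * b) (mul_pos ha' hb)
      exact ⟨v, hbv _ _ hv, hv'⟩
  push Not at h1
  have hrat : ∀ i, P i ≠ 0 → ∃ q : ℚ, (q : ℂ) = c i := by
    intro i hi
    by_contra h2
    push Not at h2
    exact hi ((h1 i).1 h2)
  have hdeg : ∀ i, (P i).natDegree ≤ 1 := fun i => by
    have := (h1 i).2
    omega
  have h2 : ∃ j, Bd (P j) := by
    by_contra h2
    push Not at h2
    apply hne
    intro i hi
    have := h2 i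
    unfold Bd at this
    push Not at this
    exact ⟨hrat i hi, hdeg i, mem_QB.1 this.1, this.2⟩
  obtain ⟨j, hj⟩ := h2
  have hPj : P j ≠ 0 := by
    intro h0
    rcases hj with h | h
    · apply h; rw [h0, coeff_zero]; exact QB.zero_mem
    · apply h; rw [h0, coeff_zero]; exact LL.zero_mem
  obtain ⟨c0, hc0⟩ := hrat j hPj
  obtain ⟨B1, hB1, hB1'⟩ := sep_set (fun i => ((p i : ℝ), (q i : ℝ))) hli
      (Finset.univ.image c) (c j)
  obtain ⟨l, hl1, hl2, hl3, b, hb, hba, hbv⟩ := filt (fun i => ((p i : ℝ), (q i : ℝ))) hg hli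
          B1 (M := KM R) (by omega)
  obtain ⟨v, hv, hv'⟩ := core_c (Finset.univ.image c) (c0 := c0)
    (by rw [hc0]; exact Finset.mem_image_of_mem c (Finset.mem_univ j)) _
    (Function.extend c P 0) le_rfl (by
      intro x hx hne
      obtain ⟨i, -, rfl⟩ := Finset.mem_image.1 hx
      rw [hQ] at hne
      exact hrat i hne) (by
      intro x hx
      obtain ⟨i, -, rfl⟩ := Finset.mem_image.1 hx
      rw [hQ]
      by_cases h0 : P i = 0
      · rw [h0, wt_zero]; omega
      · rw [wt_of_ne h0]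
        have := hdeg i
        omega) (by rw [hc0, hQ]; exact hj) l hl2 (by
      intro e he
      obtain ⟨i, hi, rfl⟩ := hl3 e he
      rw [hc0]
      exact hB1' i hi) (by omega) (a * b) (mul_pos ha' hb) (haa.mul hba)
  exact ⟨v, hbv _ _ hv, hv'⟩

theorem pw_cpow (c : ℂ) {n : ℕ} (hn : 1 ≤ n) : pw c (n : ℝ) = (n : ℂ) ^ c := by
  have hn0 : (n : ℂ) ≠ 0 := by exact_mod_cast (by omega : n ≠ 0)
  rw [Complex.cpow_def_of_ne_zero hn0, ← Complex.natCast_log]
  unfold pw
  rw [mul_comm]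

open Classical in
/-- **The main theorem.** -/
theorem main (R : ℕ) (ε : ℝ) (hε : 0 < ε) : ∃ N0 : ℕ, ∀ N ≥ N0, ∀ (h : ℕ) (c : Fin h → ℂ)
    (P : Fin h → ℂ[X]), Function.Injective c → ∑ i, ((P i).natDegree + 1) ≤ R → ¬ Exc c P →
      (((Finset.Icc 1 N).filter (fun n : ℕ =>
        ∑ i, (P i).eval ((Real.log n : ℝ) : ℂ) * (n : ℂ) ^ c i ∈ LL)).card : ℝ) ≤ ε * N := by
  obtain ⟨N0, hN0⟩ := dens_unif (KM R + R + 2) ε hε
  refine ⟨N0, fun N hN h c P hc hR hne => ?_⟩
  have h1 := hN0 N hN (fun v => ∑ i, (P i).eval ((Real.log v : ℝ) : ℂ) * pw (c i) v ∈ LL)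
    (fun p q hp hq hinj a ha => cube_all c hc P hR hne p q hp hq hinj a ha)
  convert h1 using 3
  apply Finset.filter_congr
  intro n hn
  have hn1 : 1 ≤ n := (Finset.mem_Icc.1 hn).1
  simp only [pw_cpow _ hn1]

/-- the exceptional case: Baker's theorem decides -/
theorem exc_mem {h : ℕ} (c : Fin h → ℂ) (P : Fin h → ℂ[X]) (hE : Exc c P) (n : ℕ) (hn : 1 ≤ n) :
    ∑ i, (P i).eval ((Real.log n : ℝ) : ℂ) * (n : ℂ) ^ c i ∈ LL := by
  apply Submodule.sum_mem
  intro i _
  by_cases hi : P i = 0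
  · rw [hi, eval_zero, zero_mul]; exact LL.zero_mem
  obtain ⟨⟨q, hq⟩, hdeg, h1, h0⟩ := hE i hi
  have hn0 : (0 : ℝ) < n := by exact_mod_cast hn
  have hna : IsAlgebraic ℚ (n : ℝ) := by exact_mod_cast isAlgebraic_natCast (R := ℚ) (A := ℝ) n
  have h4 : (P i).eval ((Real.log n : ℝ) : ℂ) =
      (P i).coeff 1 * ((Real.log n : ℝ) : ℂ) + (P i).coeff 0 := by
    conv_lhs => rw [eq_X_add_C_of_natDegree_le_one hdeg]
    simp
  rw [h4, mul_comm, ← hq, ← pw_cpow _ hn]
  exact LL_mul (pw_QB q hn0 hna) (Submodule.add_mem _ (LL_mul (mem_QB.2 h1) (log_LL hn0 hna)) h0)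

end Pool.Agent.TH975.EC
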