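import Pool.Agent.TH975.EC.Dens

/-!
# A zero-one law for exponential polynomials in `log n`

Let `F(n) = Σ_i P_i(log n) n ^ c_i` with different complex exponents `c_i` and polynomials `P_i` with
complex coefficients. Either all values `F(n)` are linear forms in `1` and logarithms of algebraic
numbers (the case of Baker's theorem, described exactly), or almost none are, uniformly in the
exponents and coefficients. In the second case `exp (F(n))` is transcendental for almost all `n`.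

Example: `exp (F(n)) = t (b n ^ s) ^ (κ n ^ c)`. For `t = b = κ = 1`, `s = 1 / 2`, `c = √2 / 2` this
is the tower `√n ^ (√n ^ √2)`, for `n = 2` it is `w = √2 ^ (√2 ^ √2)`; `t = 1 / w` is allowed.
-/

namespace Pool.Agent.TH975.EC.OldResult

open Polynomial

/-- `F(n) = Σ_i P_i(log n) n ^ c_i` -/
noncomputable def F {h : ℕ} (c : Fin h → ℂ) (P : Fin h → ℂ[X]) (n : ℕ) : ℂ :=
  ∑ i, (P i).eval ((Real.log n : ℝ) : ℂ) * (n : ℂ) ^ c i

/-- the linear combinations of `1` and of logarithms of algebraic numbers, with algebraic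
coefficients -/
noncomputable def Lam : Submodule (algebraicClosure ℚ ℂ) ℂ :=
  Submodule.span (algebraicClosure ℚ ℂ) ({1} ∪ {z : ℂ | IsAlgebraic ℚ (Complex.exp z)})

/-- the numbers `exp z`, `z ∈ Lam`, in other words the numbers `e ^ γ α_1 ^ β_1 ⋯ α_k ^ β_k` with
algebraic `γ`, `α_i ≠ 0`, `β_i` -/
def Prods : Set ℂ := {x | ∃ z ∈ Lam, Complex.exp z = x}

/-- the case of Baker's theorem: rational exponents, polynomials `β_i X + λ_i` with `β_i` algebraic
and `λ_i` a linear form in `1` and logarithms of algebraic numbers -/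
def BakerCase {h : ℕ} (c : Fin h → ℂ) (P : Fin h → ℂ[X]) : Prop :=
  ∀ i, P i ≠ 0 → (∃ q : ℚ, (q : ℂ) = c i) ∧ (P i).natDegree ≤ 1 ∧
    IsAlgebraic ℚ ((P i).coeff 1) ∧ (P i).coeff 0 ∈ Lam

open Classical in
/-- the number of `n ≤ N` for which `F(n)` is a linear form in `1` and logarithms -/
noncomputable def count {h : ℕ} (c : Fin h → ℂ) (P : Fin h → ℂ[X]) (N : ℕ) : ℕ :=
  ((Finset.Icc 1 N).filter (fun n : ℕ => F c P n ∈ Lam)).card

open Classical in
/-- the number of `n ≤ N` for which `t (b n ^ s) ^ (κ n ^ c)` belongs to `Prods` -/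
noncomputable def towers (t : ℂ) (b s κ c : ℝ) (N : ℕ) : ℕ :=
  ((Finset.Icc 1 N).filter (fun n : ℕ =>
    t * (((b * (n : ℝ) ^ s) ^ (κ * (n : ℝ) ^ c) : ℝ) : ℂ) ∈ Prods)).card

theorem result :
    (∀ (R : ℕ) (ε : ℝ), 0 < ε → ∃ N0 : ℕ, ∀ N ≥ N0, ∀ (h : ℕ) (c : Fin h → ℂ) (P : Fin h → ℂ[X]),
      Function.Injective c → ∑ i, ((P i).natDegree + 1) ≤ R → ¬ BakerCase c P →
        (count c P N : ℝ) ≤ ε * N) ∧
    (∀ (h : ℕ) (c : Fin h → ℂ) (P : Fin h → ℂ[X]), BakerCase c P → ∀ n : ℕ, 1 ≤ n →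
      F c P n ∈ Lam) ∧
    (∀ ε : ℝ, 0 < ε → ∃ N0 : ℕ, ∀ N ≥ N0, ∀ (t : ℂ) (b s κ c : ℝ), t ≠ 0 → 0 < b →
      (b ≠ 1 ∨ s ≠ 0) → κ ≠ 0 → Irrational c → (towers t b s κ c N : ℝ) ≤ ε * N) ∧
    ((1 : ℝ) * (2 : ℝ) ^ (1 / 2 : ℝ)) ^ ((1 : ℝ) * (2 : ℝ) ^ (Real.sqrt 2 / 2)) =
      Real.sqrt 2 ^ (Real.sqrt 2 ^ Real.sqrt 2) ∧
    (∀ x : ℂ, x ≠ 0 → IsAlgebraic ℚ x → x ∈ Prods) := by
  classical
  have h1 : ∀ (R : ℕ) (ε : ℝ), 0 < ε → ∃ N0 : ℕ, ∀ N ≥ N0, ∀ (h : ℕ) (c : Fin h → ℂ)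
      (P : Fin h → ℂ[X]), Function.Injective c → ∑ i, ((P i).natDegree + 1) ≤ R →
        ¬ BakerCase c P → (count c P N : ℝ) ≤ ε * N := fun R ε hε =>
    Pool.Agent.TH975.EC.main R ε hε
  refine ⟨h1, fun h c P hE n hn => Pool.Agent.TH975.EC.exc_mem c P hE n hn, ?_, ?_, ?_⟩
  · intro ε hε
    obtain ⟨N0, hN0⟩ := h1 3 ε hε
    refine ⟨N0, fun N hN t b s κ c ht hb hbs hκ hirr => ?_⟩
    have hcQ : ¬ ∃ q : ℚ, (q : ℂ) = (c : ℂ) := by
      rintro ⟨q, hq⟩
      exact hirr ⟨q, by exact_mod_cast hq⟩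
    have hc0 : (c : ℂ) ≠ 0 := by exact_mod_cast hirr.ne_zero
    have hP0 : Polynomial.C ((κ : ℂ) * s) * X + Polynomial.C ((κ : ℂ) * (Real.log b : ℝ)) ≠ 0 := by
      intro h0
      have hκ' : (κ : ℂ) ≠ 0 := by exact_mod_cast hκ
      rcases hbs with hb1 | hs
      · have e := congrArg (fun p => p.coeff 0) h0
        simp only [coeff_add, coeff_C_mul, coeff_X_zero, mul_zero, coeff_C_zero, zero_add,
          coeff_zero] at e
        have e2 := (mul_eq_zero.1 e).resolve_left hκ'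
        have e3 : Real.log b = 0 := by exact_mod_cast e2
        rcases Real.log_eq_zero.1 e3 with e4 | e4 | e4
        · exact hb.ne' e4
        · exact hb1 e4
        · linarith
      · have e := congrArg (fun p => p.coeff 1) h0
        simp only [coeff_add, coeff_C_mul, coeff_X_one, mul_one, coeff_C_succ, add_zero,
          coeff_zero] at e
        have e2 := (mul_eq_zero.1 e).resolve_left hκ'
        exact hs (by exact_mod_cast e2)
    have h2 := hN0 N hN 2 ![(c : ℂ), 0]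
      ![Polynomial.C ((κ : ℂ) * s) * X + Polynomial.C ((κ : ℂ) * (Real.log b : ℝ)),
        Polynomial.C (Complex.log t)] (by
        intro i j hij
        fin_cases i <;> fin_cases j
        · rfl
        · exact absurd hij hc0
        · exact absurd hij.symm hc0
        · rfl) (by
        rw [Fin.sum_univ_two]
        show (Polynomial.C ((κ : ℂ) * s) * X +
          Polynomial.C ((κ : ℂ) * (Real.log b : ℝ))).natDegree + 1 +
          ((Polynomial.C (Complex.log t)).natDegree + 1) ≤ 3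
        have := natDegree_linear_le (a := (κ : ℂ) * s) (b := (κ : ℂ) * (Real.log b : ℝ))
        rw [natDegree_C]
        omega) (by
        intro hE
        exact hcQ (hE 0 hP0).1)
    refine le_trans ?_ h2
    unfold towers count
    apply Nat.cast_le.2
    apply Finset.card_le_card
    intro n hn
    rw [Finset.mem_filter, Finset.mem_Icc] at hn ⊢
    refine ⟨hn.1, ?_⟩
    have hn0 : (0 : ℝ) < n := by exact_mod_cast hn.1.1
    have hns : (0 : ℝ) < (n : ℝ) ^ s := Real.rpow_pos_of_pos hn0 s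
    have h3 : Complex.exp (F ![(c : ℂ), 0]
        ![Polynomial.C ((κ : ℂ) * s) * X + Polynomial.C ((κ : ℂ) * (Real.log b : ℝ)),
          Polynomial.C (Complex.log t)] n) =
        t * (((b * (n : ℝ) ^ s) ^ (κ * (n : ℝ) ^ c) : ℝ) : ℂ) := by
      unfold F
      rw [Fin.sum_univ_two]
      show Complex.exp ((Polynomial.C ((κ : ℂ) * s) * X +
        Polynomial.C ((κ : ℂ) * (Real.log b : ℝ))).eval ((Real.log n : ℝ) : ℂ) *
        (n : ℂ) ^ (c : ℂ) + (Polynomial.C (Complex.log t)).eval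
          ((Real.log n : ℝ) : ℂ) * (n : ℂ) ^ (0 : ℂ)) = _
      rw [Complex.cpow_zero, eval_C, mul_one, Complex.exp_add, Complex.exp_log ht,
        mul_comm t, Real.rpow_def_of_pos (mul_pos hb hns), Complex.ofReal_exp]
      congr 2
      rw [eval_add, eval_mul, eval_C, eval_X, eval_C, Real.log_mul hb.ne' hns.ne',
        Real.log_rpow hn0, ← Complex.ofReal_natCast n, ← Complex.ofReal_cpow hn0.le]
      push_cast
      ring
    obtain ⟨z, hz, hz'⟩ := hn.2
    rw [← h3, Complex.exp_eq_exp_iff_exists_int] at hz'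
    obtain ⟨k, hk⟩ := hz'
    have h4 : F ![(c : ℂ), 0]
        ![Polynomial.C ((κ : ℂ) * s) * X + Polynomial.C ((κ : ℂ) * (Real.log b : ℝ)),
          Polynomial.C (Complex.log t)] n =
        z - k * (2 * Real.pi * Complex.I) := by rw [hk]; ring
    rw [h4]
    refine Submodule.sub_mem _ hz (Submodule.subset_span (Or.inr ?_))
    show IsAlgebraic ℚ (Complex.exp (k * (2 * Real.pi * Complex.I)))
    rw [Complex.exp_int_mul_two_pi_mul_I]
    exact isAlgebraic_one
  · have e1 : (2 : ℝ) ^ (1 / 2 : ℝ) = Real.sqrt 2 := (Real.sqrt_eq_rpow 2).symm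
    have e2 : (2 : ℝ) ^ (Real.sqrt 2 / 2) = Real.sqrt 2 ^ Real.sqrt 2 := by
      calc (2 : ℝ) ^ (Real.sqrt 2 / 2) = (2 : ℝ) ^ ((1 / 2 : ℝ) * Real.sqrt 2) := by
            congr 1; ring
        _ = ((2 : ℝ) ^ (1 / 2 : ℝ)) ^ Real.sqrt 2 := Real.rpow_mul (by norm_num) _ _
        _ = Real.sqrt 2 ^ Real.sqrt 2 := by rw [e1]
    rw [one_mul, one_mul, e1, e2]
  · intro x hx hxa
    exact ⟨Complex.log x, Submodule.subset_span (Or.inr (by
      show IsAlgebraic ℚ (Complex.exp (Complex.log x))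
      rw [Complex.exp_log hx]; exact hxa)), Complex.exp_log hx⟩

end Pool.Agent.TH975.EC.OldResult
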