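import Pool.Agent.TH975.EP.Dens

/-! Complex exponents: growth of the spaces spanned by the values on cubes. -/

namespace Pool.Agent.TH975.EC

open Polynomial Module Pool.Agent.TH975.EP

/-- `v ^ c` -/
noncomputable def pw (c : ℂ) (v : ℝ) : ℂ := Complex.exp (c * ((Real.log v : ℝ) : ℂ))

theorem pw_ne (c : ℂ) (v : ℝ) : pw c v ≠ 0 := Complex.exp_ne_zero _

theorem pw_mul (c : ℂ) {u v : ℝ} (hu : 0 < u) (hv : 0 < v) : pw c (u * v) = pw c u * pw c v := by
  unfold pw
  rw [Real.log_mul hu.ne' hv.ne', ← Complex.exp_add]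
  push_cast
  ring_nf

theorem pw_rat (q : ℚ) {v : ℝ} (hv : 0 < v) : pw (q : ℂ) v = ((v ^ (q : ℝ) : ℝ) : ℂ) := by
  unfold pw
  rw [Real.rpow_def_of_pos hv, Complex.ofReal_exp]
  congr 1
  push_cast
  ring

theorem pw_QB (q : ℚ) {v : ℝ} (hv : 0 < v) (hva : IsAlgebraic ℚ v) : pw (q : ℂ) v ∈ QB := by
  rw [pw_rat q hv]
  exact rpow_QB hv hva q

/-- the powers with different exponents are separated along the side `e` -/
def Sep (C : Finset ℂ) (c0 : ℂ) (e : ℝ × ℝ) : Prop :=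
  ∀ c1 ∈ C, c1 ≠ c0 → pw c0 e.2 * pw c1 e.1 ≠ pw c1 e.2 * pw c0 e.1

/-- admissible cubes in the exponent `c` -/
def Good (c : ℂ) (l : List (ℝ × ℝ)) : Prop :=
  ∀ e ∈ l, 0 < e.1 ∧ 0 < e.2 ∧ e.1 ≠ e.2 ∧ Transcendental ℚ (pw c e.2 / pw c e.1)

theorem Good.tail {c : ℂ} {e : ℝ × ℝ} {l : List (ℝ × ℝ)} (h : Good c (e :: l)) : Good c l :=
  fun e' he' => h e' (List.mem_cons_of_mem _ he')

theorem Good.pos {c : ℂ} {l : List (ℝ × ℝ)} (h : Good c l) : ∀ e ∈ l, 0 < e.1 ∧ 0 < e.2 :=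
  fun e he => ⟨(h e he).1, (h e he).2.1⟩

/-- the powers `v ^ c` on a cube -/
theorem growth {c : ℂ} {lam : ℂ} (hlam : lam ≠ 0) : ∀ (l : List (ℝ × ℝ)), Good c l →
    ∀ a : ℝ, 0 < a → ∀ (V : Submodule QB ℂ) [FiniteDimensional QB V],
      (∀ v ∈ vals l a, lam * pw c v ∈ V) → l.length + 1 ≤ finrank QB V := by
  intro l
  induction l with
  | nil =>
    intro _ a ha V _ hV
    have h1 := hV a (by simp [vals])
    have h2 : lam * pw c a ≠ 0 := mul_ne_zero hlam (pw_ne c a)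
    have h3 : V ≠ ⊥ := fun h => h2 (by rw [h] at h1; simpa using h1)
    have := Submodule.one_le_finrank_iff.2 h3
    simpa using this
  | cons e l ih =>
    intro hl a ha V _ hV
    obtain ⟨h1, h2, h3, ht⟩ := hl e (List.mem_cons_self ..)
    have hP : pw c e.1 ≠ 0 := pw_ne c e.1
    have hQ : pw c e.2 ≠ 0 := pw_ne c e.2
    have hW : ∀ v ∈ vals l a, lam * pw c v ∈
        V.comap (mu (pw c e.1)) ⊓ V.comap (mu (pw c e.2)) := by
      intro v hv
      have hv0 := vals_pos hl.tail.pos ha v hv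
      obtain ⟨h5, h6⟩ := mem_vals_cons (e := e) hv
      refine ⟨?_, ?_⟩
      · have := hV _ h5
        rw [pw_mul c h1 hv0] at this
        show pw c e.1 * (lam * pw c v) ∈ V
        rw [show pw c e.1 * (lam * pw c v) = lam * (pw c e.1 * pw c v) by ring]
        exact this
      · have := hV _ h6
        rw [pw_mul c h2 hv0] at this
        show pw c e.2 * (lam * pw c v) ∈ V
        rw [show pw c e.2 * (lam * pw c v) = lam * (pw c e.2 * pw c v) by ring]
        exact this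
    have hne : V.comap (mu (pw c e.1)) ⊓ V.comap (mu (pw c e.2)) ≠ ⊥ := by
      intro h0
      obtain ⟨v, hv⟩ := vals_nonempty l a
      have h7 := hW v hv
      rw [h0, Submodule.mem_bot] at h7
      exact mul_ne_zero hlam (pw_ne c v) h7
    obtain ⟨hf, hlt⟩ := finrank_comap_inf hP hQ ht hne
    have := ih hl.tail a ha _ hW
    rw [List.length_cons]
    omega

/-- the exponential polynomial with exponents in `C` -/
noncomputable def ev (C : Finset ℂ) (Q : ℂ → ℂ[X]) (v : ℝ) : ℂ :=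
  ∑ c ∈ C, (Q c).eval ((Real.log v : ℝ) : ℂ) * pw c v

/-- the coefficients of `v ↦ ev C Q (u v)` -/
noncomputable def shf (u : ℝ) (Q : ℂ → ℂ[X]) (c : ℂ) : ℂ[X] :=
  Polynomial.C (pw c u) * sft ((Real.log u : ℝ) : ℂ) (Q c)

theorem ev_shf (C : Finset ℂ) (Q : ℂ → ℂ[X]) {u v : ℝ} (hu : 0 < u) (hv : 0 < v) :
    ev C (shf u Q) v = ev C Q (u * v) := by
  unfold ev shf
  apply Finset.sum_congr rfl
  intro c _
  rw [eval_mul, eval_C, sft_eval, Real.log_mul hu.ne' hv.ne', pw_mul c hu hv]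
  push_cast
  rw [add_comm ((Real.log v : ℝ) : ℂ)]
  ring

/-- total weight -/
noncomputable def W (C : Finset ℂ) (Q : ℂ → ℂ[X]) : ℕ := ∑ c ∈ C, wt (Q c)

/-- the difference operator along one side of a cube -/
noncomputable def dQ (e : ℝ × ℝ) (τ : ℂ) (Q : ℂ → ℂ[X]) (c : ℂ) : ℂ[X] :=
  dif (pw c e.2) (pw c e.1) ((Real.log e.2 : ℝ) : ℂ) ((Real.log e.1 : ℝ) : ℂ) τ (Q c)

theorem ev_dQ (C : Finset ℂ) (Q : ℂ → ℂ[X]) {e : ℝ × ℝ} (h1 : 0 < e.1) (h2 : 0 < e.2) (τ : ℂ)
    {v : ℝ} (hv : 0 < v) : ev C (dQ e τ Q) v = ev C Q (e.2 * v) - τ * ev C Q (e.1 * v) := by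
  rw [← ev_shf C Q h1 hv, ← ev_shf C Q h2 hv]
  unfold ev
  rw [Finset.mul_sum, ← Finset.sum_sub_distrib]
  apply Finset.sum_congr rfl
  intro c _
  unfold dQ dif shf
  rw [eval_sub, eval_mul (p := Polynomial.C τ), eval_C]
  ring

/-- **Rank lemma**: the values on large cubes span spaces of large dimension. -/
theorem rank (C : Finset ℂ) {c0 : ℂ} (hc0 : c0 ∈ C) (D0 : ℕ) (G : List (ℝ × ℝ) → Prop)
    (hG0 : ∀ e l, G (e :: l) → G l)
    (hG1 : ∀ e l, G (e :: l) → 0 < e.1 ∧ 0 < e.2 ∧ e.1 ≠ e.2 ∧ Sep C c0 e)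
    (TG : ∀ P : ℂ[X], wt P = D0 + 1 → ∀ l, G l → ∀ a : ℝ, 0 < a →
      ∀ (V : Submodule QB ℂ) [FiniteDimensional QB V],
        (∀ v ∈ vals l a, P.eval ((Real.log v : ℝ) : ℂ) * pw c0 v ∈ V) →
          l.length ≤ finrank QB V) :
    ∀ T s : ℕ, ∀ Q : ℂ → ℂ[X], W C Q ≤ T → D0 + 1 ≤ wt (Q c0) → ∀ l, G l →
      KR T s ≤ l.length → ∀ a : ℝ, 0 < a → ∀ (V : Submodule QB ℂ) [FiniteDimensional QB V],
        (∀ v ∈ vals l a, ev C Q v ∈ V) → s < finrank QB V := by
  have hGpos : ∀ l, G l → ∀ e ∈ l, 0 < e.1 ∧ 0 < e.2 := by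
    intro l
    induction l with
    | nil => intro _ e he; simp at he
    | cons e l ih =>
      intro h e' he'
      rcases List.mem_cons.1 he' with h1 | h1
      · rw [h1]; exact ⟨(hG1 e l h).1, (hG1 e l h).2.1⟩
      · exact ih (hG0 e l h) e' h1
  intro T
  induction T with
  | zero =>
    intro s Q hQ h0
    exfalso
    have h1 : wt (Q c0) ≤ W C Q :=
      Finset.single_le_sum (f := fun c => wt (Q c)) (fun _ _ => Nat.zero_le _) hc0
    omega
  | succ T ih =>
    intro s Q hQ h0 l hl hlen a ha V _ hV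
    have hK := ih (2 * s)
    have hlen1 : KR T (2 * s) + 1 ≤ l.length := (le_max_left _ _).trans hlen
    have hlen2 : s + 1 ≤ l.length := (le_max_right _ _).trans hlen
    by_cases h : ∃ c1 ∈ C, Q c1 ≠ 0 ∧ (c1 ≠ c0 ∨ (c1 = c0 ∧ D0 + 2 ≤ wt (Q c0)))
    · obtain ⟨c1, hc1, hQ1, hcase⟩ := h
      obtain ⟨e, l', rfl⟩ : ∃ e l', l = e :: l' := by
        cases l with
        | nil => simp at hlen1
        | cons e l' => exact ⟨e, l', rfl⟩
      obtain ⟨he1, he2, hne, hsep⟩ := hG1 e l' hl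
      set τ : ℂ := pw c1 e.2 / pw c1 e.1 with hτ
      have hB : ∀ c : ℂ, pw c e.1 ≠ 0 := fun c => pw_ne c _
      have hA : ∀ c : ℂ, pw c e.2 ≠ 0 := fun c => pw_ne c _
      have hAB : pw c1 e.2 = τ * pw c1 e.1 := by
        rw [hτ, div_mul_cancel₀ _ (hB c1)]
      have hlog : ((Real.log e.2 : ℝ) : ℂ) ≠ ((Real.log e.1 : ℝ) : ℂ) := by
        intro h1
        have h2 : Real.log e.2 = Real.log e.1 := by exact_mod_cast h1
        exact hne (Real.log_injOn_pos he1 he2 h2.symm)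
      have hW : W C (dQ e τ Q) ≤ T := by
        have h1 : W C (dQ e τ Q) < W C Q := by
          apply Finset.sum_lt_sum
          · intro c _; exact dif_wt_le _ _ _ _ _ _
          · exact ⟨c1, hc1, dif_wt_lt hAB hQ1⟩
        omega
      have h1 : D0 + 1 ≤ wt (dQ e τ Q c0) := by
        rcases hcase with hcase | ⟨hcase, h2⟩
        · unfold dQ
          rw [dif_wt_eq]
          · exact h0
          · intro h2
            apply hsep c1 hc1 hcase
            have h9 := hB c1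
            rw [h2, hτ]
            field_simp
        · subst hcase
          have := dif_wt_ge (x := ((Real.log e.2 : ℝ) : ℂ)) (y := ((Real.log e.1 : ℝ) : ℂ))
            (P := Q c1) hAB (hA c1) hlog
          unfold dQ
          omega
      have hfd : FiniteDimensional QB (V.map (mu τ)) := inferInstance
      have hf2 : FiniteDimensional QB (V ⊔ V.map (mu τ) : Submodule QB ℂ) := inferInstance
      have h2 := hK (dQ e τ Q) hW h1 l' (hG0 e l' hl) (by
        rw [List.length_cons] at hlen1; omega) a ha (V ⊔ V.map (mu τ)) (by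
        intro v hv
        have hv0 := vals_pos (hGpos l' (hG0 e l' hl)) ha v hv
        obtain ⟨h5, h6⟩ := mem_vals_cons (e := e) hv
        rw [ev_dQ C Q he1 he2 τ hv0]
        refine Submodule.sub_mem _ (Submodule.mem_sup_left (hV _ h6)) (Submodule.mem_sup_right ?_)
        exact ⟨_, hV _ h5, rfl⟩)
      have h3 : finrank QB (V ⊔ V.map (mu τ) : Submodule QB ℂ) ≤
          finrank QB V + finrank QB (V.map (mu τ)) :=
        Submodule.finrank_add_le_finrank_add_finrank _ _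
      have h4 : finrank QB (V.map (mu τ)) ≤ finrank QB V := Submodule.finrank_map_le _ _
      omega
    · push Not at h
      have h1 : wt (Q c0) = D0 + 1 := by
        by_contra hne
        have h2 : Q c0 ≠ 0 := fun h3 => by rw [h3, wt_zero] at h0; omega
        have := (h c0 hc0 h2).2 rfl
        omega
      have h2 : ∀ v, ev C Q v = (Q c0).eval ((Real.log v : ℝ) : ℂ) * pw c0 v := by
        intro v
        unfold ev
        apply Finset.sum_eq_single c0
        · intro c hc hne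
          have : Q c = 0 := by
            by_contra h3
            exact hne ((h c hc h3).1)
          rw [this, eval_zero, zero_mul]
        · intro h3; exact absurd hc0 h3
      have := TG (Q c0) h1 l hl a ha V (fun v hv => by rw [← h2]; exact hV v hv)
      omega

/-- the rank lemma for exponents which are not rational -/
theorem rank_a (C : Finset ℂ) {c0 : ℂ} (hc0 : c0 ∈ C) :
    ∀ T s : ℕ, ∀ Q : ℂ → ℂ[X], W C Q ≤ T → Q c0 ≠ 0 → ∀ l, Good c0 l →
      (∀ e ∈ l, Sep C c0 e) →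
      KR T s ≤ l.length → ∀ a : ℝ, 0 < a → ∀ (V : Submodule QB ℂ) [FiniteDimensional QB V],
        (∀ v ∈ vals l a, ev C Q v ∈ V) → s < finrank QB V := by
  intro T s
  have hK := rank C hc0 0 (fun l => Good c0 l ∧ ∀ e ∈ l, Sep C c0 e)
    (fun e l h => ⟨h.1.tail, fun e' he' => h.2 e' (List.mem_cons_of_mem _ he')⟩)
    (fun e l h => by
      obtain ⟨h1, h2, h3, -⟩ := h.1 e (List.mem_cons_self ..)
      exact ⟨h1, h2, h3, h.2 e (List.mem_cons_self ..)⟩)
    (by
      intro P hP l hl a ha V _ hV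
      have hne : P ≠ 0 := fun h => by rw [h, wt_zero] at hP; omega
      rw [wt_of_ne hne] at hP
      have h1 : P = Polynomial.C (P.coeff 0) := eq_C_of_natDegree_eq_zero (by omega)
      have h2 : P.coeff 0 ≠ 0 := fun h => hne (by rw [h1, h, C_0])
      have := growth h2 l hl.1 a ha V (fun v hv => by
        have := hV v hv
        rw [h1, eval_C] at this
        exact this)
      omega) T s
  intro Q hQ h0 l hl hs
  refine hK Q hQ ?_ l ⟨hl, hs⟩
  have := wt_pos h0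
  omega

theorem wt_shf (u : ℝ) (Q : ℂ → ℂ[X]) (c : ℂ) : wt (shf u Q c) ≤ wt (Q c) :=
  (wt_C_mul _ _).trans (sft_wt _ _).le

/-- linear combinations of shifts -/
noncomputable def cmb {d : ℕ} (m : Fin d → ℂ) (u : Fin d → ℝ) (Q : ℂ → ℂ[X]) (c : ℂ) : ℂ[X] :=
  ∑ j, Polynomial.C (m j) * shf (u j) Q c

theorem ev_cmb (C : Finset ℂ) {d : ℕ} (m : Fin d → ℂ) (u : Fin d → ℝ) (Q : ℂ → ℂ[X])
    (hu : ∀ j, 0 < u j) {v : ℝ} (hv : 0 < v) :
    ev C (cmb m u Q) v = ∑ j, m j * ev C Q (u j * v) := by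
  have h1 : ∀ j, m j * ev C Q (u j * v) =
      ∑ c ∈ C, m j * ((shf (u j) Q c).eval ((Real.log v : ℝ) : ℂ) * pw c v) := by
    intro j
    rw [← ev_shf C Q (hu j) hv]
    unfold ev
    rw [Finset.mul_sum]
  simp only [h1]
  rw [Finset.sum_comm]
  unfold ev cmb
  apply Finset.sum_congr rfl
  intro c _
  rw [eval_finsetSum, Finset.sum_mul]
  apply Finset.sum_congr rfl
  intro j _
  rw [eval_mul, eval_C]
  ring

theorem wt_cmb {d : ℕ} (m : Fin d → ℂ) (u : Fin d → ℝ) (Q : ℂ → ℂ[X]) (c : ℂ) :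
    wt (cmb m u Q c) ≤ wt (Q c) := by
  rw [wt_le_iff]
  apply Submodule.sum_mem
  intro j _
  exact wt_le_iff.1 ((wt_C_mul _ _).trans (wt_shf _ _ _))

theorem cmb_coeff {d : ℕ} (m : Fin d → ℂ) (u : Fin d → ℝ) (Q : ℂ → ℂ[X]) (c : ℂ) :
    (cmb m u Q c).coeff (Q c).natDegree = (∑ j, m j * pw c (u j)) * (Q c).leadingCoeff := by
  unfold cmb shf
  rw [finsetSum_coeff, Finset.sum_mul]
  apply Finset.sum_congr rfl
  intro j _
  rw [coeff_C_mul, coeff_C_mul]
  have : (sft ((Real.log (u j) : ℝ) : ℂ) (Q c)).coeff (Q c).natDegree = (Q c).leadingCoeff := by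
    rw [← sft_natDegree ((Real.log (u j) : ℝ) : ℂ) (Q c)]
    exact sft_leadingCoeff _ _
  rw [this]
  ring

theorem cmb_coeff' {d : ℕ} (m : Fin d → ℂ) (u : Fin d → ℝ) (Q : ℂ → ℂ[X]) (c : ℂ) {D : ℕ}
    (hD : (Q c).natDegree = D + 1) :
    (cmb m u Q c).coeff D = (∑ j, m j * pw c (u j)) * (Q c).coeff D +
      (∑ j, m j * pw c (u j) * ((Real.log (u j) : ℝ) : ℂ)) *
        ((Q c).coeff (D + 1) * (D + 1 : ℕ)) := by
  unfold cmb shf
  rw [finsetSum_coeff, Finset.sum_mul, Finset.sum_mul, ← Finset.sum_add_distrib]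
  apply Finset.sum_congr rfl
  intro j _
  rw [coeff_C_mul, coeff_C_mul, sft_coeff _ _ hD]
  ring

end Pool.Agent.TH975.EC
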